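import Pool.Agent.KS6_21.NC.Gen

set_option autoImplicit false

/-! The group of the finitary permutations of an infinite set. -/

namespace Pool.Agent.KS6_21.NC

open Set Topology Filter Equiv Pool.Agent.KS6_21.SZ

universe u

/-- The group of the finitary permutations of `X`. -/
def FSym (X : Type u) : Subgroup (Equiv.Perm X) where
  carrier := {σ | {t | σ t ≠ t}.Finite}
  one_mem' := by simp
  mul_mem' := fun {a b} ha hb => (ha.union hb).subset fun t ht => by
    by_contra h
    rw [mem_union, not_or] at h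
    have h1 : a t = t := not_not.1 h.1
    have h2 : b t = t := not_not.1 h.2
    exact ht (by show a (b t) = t; rw [h2, h1])
  inv_mem' := fun {a} ha => ha.subset fun t ht h => ht (by
    rw [Perm.inv_eq_iff_eq]; exact h.symm)

variable {X : Type u}

theorem fix_finite [DecidableEq X] (A : Finset X) : {σ : Perm X | ∀ t ∉ A, σ t = t}.Finite := by
  have : Finite {f : Perm X // ∀ a, ¬ (a ∈ A) → f a = a} :=
    Finite.of_equiv _ (Equiv.Perm.subtypeEquivSubtypePerm (fun a => a ∈ A))
  exact this

section
variable [DecidableEq X]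

/-- The transpositions. -/
def sw (a b : X) : FSym X := ⟨swap a b, ((finite_singleton a).insert b).subset fun t ht => by
  by_contra h
  simp only [mem_insert_iff, mem_singleton_iff, not_or] at h
  exact ht (swap_apply_of_ne_of_ne h.2 h.1)⟩

theorem mul_swap (f : Perm X) (a b : X) : f * swap a b = swap (f a) (f b) * f :=
  Equiv.mul_swap_eq_swap_mul f a b

theorem comm_swap {h : Perm X} {a b : X} (hab : a ≠ b) (hc : swap a b * h = h * swap a b) :
    (h a = a ∧ h b = b) ∨ (h a = b ∧ h b = a) := by
  rw [mul_swap] at hc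
  have h1 : swap a b = swap (h a) (h b) := mul_right_cancel hc
  have h2 : swap (h a) (h b) a = b := by rw [← h1, swap_apply_left]
  by_cases h3 : a = h a
  · left
    rw [← h3, swap_apply_left] at h2
    exact ⟨h3.symm, h2⟩
  · by_cases h4 : a = h b
    · right
      rw [← h4, swap_apply_right] at h2
      exact ⟨h2, h4.symm⟩
    · rw [swap_apply_of_ne_of_ne h3 h4] at h2
      exact absurd h2 hab

variable [Infinite X]

/-- The elements of the double centralizer of `F` fix the points outside of the supports. -/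
theorem fix_of {F : Set (FSym X)} {A : Finset X} (hA : ∀ f ∈ F, ∀ t ∉ A, f.1 t = t)
    {h : FSym X} (hh : h ∈ F.centralizer.centralizer) : ∀ t ∉ A, h.1 t = t := by
  intro t ht
  obtain ⟨s, hs⟩ := Infinite.exists_notMem_finset (insert t A)
  obtain ⟨r, hr⟩ := Infinite.exists_notMem_finset (insert s (insert t A))
  simp only [Finset.mem_insert, not_or] at hs hr
  have key : ∀ s, s ∉ A → t ≠ s → (h.1 t = t ∧ h.1 s = s) ∨ (h.1 t = s ∧ h.1 s = t) := by
    intro s hs hts
    refine comm_swap hts ?_
    have : sw t s * h = h * sw t s := hh (sw t s) fun f hf => Subtype.ext (by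
      show f.1 * swap t s = swap t s * f.1
      rw [mul_swap, hA f hf t ht, hA f hf s hs])
    exact congrArg Subtype.val this
  rcases key s hs.2 (Ne.symm hs.1) with h1 | h1
  · exact h1.1
  · rcases key r hr.2.2 (Ne.symm hr.2.1) with h2 | h2
    · exact h2.1
    · exact absurd (h1.1.symm.trans h2.1) (Ne.symm hr.1)

theorem fdc (F : Set (FSym X)) (hF : F.Finite) : F.centralizer.centralizer.Finite := by
  classical
  let A : Finset X := hF.toFinset.biUnion fun f => f.2.toFinset
  have hA : ∀ f ∈ F, ∀ t ∉ A, f.1 t = t := by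
    intro f hf t ht
    by_contra h
    exact ht (Finset.mem_biUnion.2 ⟨f, by simpa using hf, by simpa using h⟩)
  refine Finite.of_finite_image (f := Subtype.val) ((fix_finite A).subset ?_)
    Subtype.val_injective.injOn
  rintro _ ⟨h, hh, rfl⟩
  exact fix_of hA hh

theorem inv_le {x : FSym X} (hx : x * x = 1) :
    ({x} : Set (FSym X)).centralizer.centralizer ⊆ {1, x} := by
  classical
  intro h hh
  have hxx : ∀ t, x.1 (x.1 t) = t := fun t => congrArg (fun y : FSym X => y.1 t) hx
  have hfix : ∀ t, x.1 t = t → h.1 t = t := by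
    intro t ht
    refine fix_of (A := x.2.toFinset) (F := {x}) ?_ hh t (by simpa using ht)
    rintro f rfl s hs
    simpa using hs
  have hcent : ∀ y : FSym X, x.1 * y.1 = y.1 * x.1 → y.1 * h.1 = h.1 * y.1 := by
    intro y hy
    have : y * h = h * y := hh y fun f hf => by
      rw [mem_singleton_iff.1 hf]
      exact Subtype.ext hy
    exact congrArg Subtype.val this
  have hsw : ∀ t, x.1 t ≠ t → (h.1 t = t ∧ h.1 (x.1 t) = x.1 t) ∨
      (h.1 t = x.1 t ∧ h.1 (x.1 t) = t) := by
    intro t ht
    refine comm_swap (Ne.symm ht) (hcent (sw t (x.1 t)) ?_)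
    show x.1 * swap t (x.1 t) = swap t (x.1 t) * x.1
    rw [mul_swap, hxx, swap_comm]
  by_cases h1 : ∀ t, h.1 t = t
  · exact Or.inl (Subtype.ext (Perm.ext h1))
  push Not at h1
  obtain ⟨a, ha⟩ := h1
  have hxa : x.1 a ≠ a := fun e => ha (hfix a e)
  have hha : h.1 a = x.1 a ∧ h.1 (x.1 a) = a := (hsw a hxa).resolve_left fun e => ha e.1
  refine Or.inr (Subtype.ext (Perm.ext fun t => ?_))
  by_cases ht : x.1 t = t
  · rw [hfix t ht, ht]
  by_cases h2 : t = a
  · rw [h2, hha.1]
  by_cases h3 : t = x.1 a
  · rw [h3, hha.2, hxx]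
  have h4 : x.1 t ≠ a := fun e => h3 (by rw [← e, hxx])
  have h5 : x.1 t ≠ x.1 a := fun e => h2 (x.1.injective e)
  -- the product of two transpositions
  have h6 := hcent (sw a t * sw (x.1 a) (x.1 t)) (by
    show x.1 * (swap a t * swap (x.1 a) (x.1 t)) = swap a t * swap (x.1 a) (x.1 t) * x.1
    have e1 : swap (x.1 a) (x.1 t) * swap a t = swap a t * swap (x.1 a) (x.1 t) := by
      rw [mul_swap (swap (x.1 a) (x.1 t)), swap_apply_of_ne_of_ne (Ne.symm hxa) (Ne.symm h4),
        swap_apply_of_ne_of_ne h3 (Ne.symm ht)]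
    calc x.1 * (swap a t * swap (x.1 a) (x.1 t))
        = (x.1 * swap a t) * swap (x.1 a) (x.1 t) := (mul_assoc _ _ _).symm
      _ = swap (x.1 a) (x.1 t) * (x.1 * swap (x.1 a) (x.1 t)) := by
          rw [mul_swap x.1 a t, mul_assoc]
      _ = swap (x.1 a) (x.1 t) * (swap a t * x.1) := by
          rw [mul_swap x.1 (x.1 a) (x.1 t), hxx, hxx]
      _ = _ := by rw [← mul_assoc, e1])
  have h7 := congrArg (fun y : Perm X => y a) h6
  have h8 : (swap a t * swap (x.1 a) (x.1 t)) (h.1 a) = h.1 ((swap a t * swap (x.1 a) (x.1 t)) a) :=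
    h7
  rw [hha.1, Perm.mul_apply, Perm.mul_apply, swap_apply_left, 
    swap_apply_of_ne_of_ne (Ne.symm hxa) (Ne.symm h4), swap_apply_left,
    swap_apply_of_ne_of_ne h4 ht] at h8
  exact h8.symm

/-- Involutions moving the elements of a finite set out of the set. -/
theorem exists_inv (A : Finset X) : ∃ x : FSym X, x * x = 1 ∧ ∀ k ∈ A, x.1 k ∉ A := by
  obtain ⟨B, hB, hc⟩ := Infinite.exists_superset_card_eq A (A.card + A.card) (by omega)
  have hcard : (B \ A).card = A.card := by
    rw [Finset.card_sdiff_of_subset hB, hc]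
    omega
  let e : A ≃ (B \ A : Finset X) := Finset.equivOfCardEq hcard.symm
  have hj : Function.Injective (Sum.elim (fun a : A => (a : X)) (fun a : A => ((e a : X)))) := by
    refine Function.Injective.sumElim Subtype.val_injective
      (Subtype.val_injective.comp e.injective) fun a b h => ?_
    have h1 := (e b).2
    rw [Finset.mem_sdiff] at h1
    exact h1.2 (by rw [← h]; exact a.2)
  let j : (A ⊕ A) ↪ X := ⟨_, hj⟩
  let y : Perm (A ⊕ A) := Equiv.sumComm A A
  have hy : y * y = 1 := Perm.ext fun t => by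
    rcases t with t | t <;> rfl
  have hfin : {t | Perm.viaEmbeddingHom j y t ≠ t}.Finite := by
    refine (finite_range j).subset fun t ht => ?_
    by_contra h
    exact ht (Perm.viaEmbedding_apply_of_notMem y j t h)
  refine ⟨⟨Perm.viaEmbeddingHom j y, hfin⟩, Subtype.ext ?_, fun k hk => ?_⟩
  · show Perm.viaEmbeddingHom j y * Perm.viaEmbeddingHom j y = 1
    rw [← map_mul, hy, map_one]
  · show Perm.viaEmbedding y j k ∉ A
    have h1 : Perm.viaEmbedding y j (j (Sum.inl ⟨k, hk⟩)) = j (y (Sum.inl ⟨k, hk⟩)) :=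
      Perm.viaEmbedding_apply y j _
    have h2 : Perm.viaEmbedding y j k = (e ⟨k, hk⟩ : X) := h1
    rw [h2]
    exact (Finset.mem_sdiff.1 (e ⟨k, hk⟩).2).2

/-- Elements whose powers up to `n` are different. -/
theorem exists_pow (n : ℕ) : ∃ g : FSym X, ∀ k l : ℕ, k ≤ n → l ≤ n → g ^ k = g ^ l → k = l := by
  have : NeZero (n + 1) := ⟨by omega⟩
  obtain ⟨B, hB⟩ := Infinite.exists_subset_card_eq X (n + 1)
  let e : ZMod (n + 1) ≃ B := Fintype.equivOfCardEq (by
    rw [ZMod.card, Fintype.card_coe, hB])
  let j : ZMod (n + 1) ↪ X := ⟨fun t => (e t : X), Subtype.val_injective.comp e.injective⟩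
  let y : Perm (ZMod (n + 1)) := Equiv.addRight 1
  have hfin : {t | Perm.viaEmbeddingHom j y t ≠ t}.Finite := by
    refine (finite_range j).subset fun t ht => ?_
    by_contra h
    exact ht (Perm.viaEmbedding_apply_of_notMem y j t h)
  have hpow : ∀ k : ℕ, (Perm.viaEmbeddingHom j y ^ k) (j 0) = j (k : ZMod (n + 1)) := by
    intro k
    induction k with
    | zero => simp
    | succ k ih =>
      rw [pow_succ', Perm.mul_apply, ih]
      have h1 : Perm.viaEmbedding y j (j (k : ZMod (n + 1))) = j (y (k : ZMod (n + 1))) :=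
        Perm.viaEmbedding_apply y j _
      refine h1.trans ?_
      simp [y]
  refine ⟨⟨Perm.viaEmbeddingHom j y, hfin⟩, fun k l hk hl h => ?_⟩
  have h1 : Perm.viaEmbeddingHom j y ^ k = Perm.viaEmbeddingHom j y ^ l :=
    congrArg Subtype.val h
  have h2 := congrArg (fun g : Perm X => g (j 0)) h1
  simp only [hpow] at h2
  have h3 := (ZMod.natCast_eq_natCast_iff' k l _).1 (j.injective h2)
  rwa [Nat.mod_eq_of_lt (by omega), Nat.mod_eq_of_lt (by omega)] at h3

/-- For all `n ≥ 2` the elements whose double centralizers have at most `n` elements are dense in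
the group of the finitary permutations of an infinite set. -/
theorem fsym_dense {n : ℕ} (hn : 2 ≤ n) :
    @closure (FSym X) (semiZariski (FSym X)) (Sle (FSym X) n) = Set.univ := by
  choose x hx hA using exists_inv (X := X)
  refine closure_eq (l := (atTop : Filter (Finset X))) (x := x) (fun w => ?_) (fun u v hu => ?_) ?_
  · obtain ⟨k, hk⟩ := Infinite.exists_notMem_finset w.2.toFinset
    have hwk : w.1 k = k := by simpa using hk
    filter_upwards [eventually_ge_atTop ({k} : Finset X)] with A hAk he
    have hkA : k ∈ A := hAk (Finset.mem_singleton_self k)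
    have h1 := hA A k hkA
    rw [he, hwk] at h1
    exact h1 hkA
  · obtain ⟨k, hk⟩ : ∃ k, u.1 k ≠ k := by
      by_contra h
      push Not at h
      exact hu (Subtype.ext (Perm.ext h))
    filter_upwards [eventually_ge_atTop (insert k v.2.toFinset)] with A hAk he
    have hkA : k ∈ A := hAk (Finset.mem_insert_self _ _)
    have hxx : (x A).1 ((x A).1 k) = k := congrArg (fun y : FSym X => y.1 k) (hx A)
    have hv : v.1 ((x A).1 k) = (x A).1 k := by
      by_contra h
      exact hA A k hkA (hAk (Finset.mem_insert_of_mem (by simpa using h)))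
    have h1 : u.1 ((x A).1 ((x A).1 k)) = (x A).1 (v.1 ((x A).1 k)) :=
      congrArg (fun y : FSym X => y.1 ((x A).1 k)) he
    rw [hv, hxx] at h1
    exact hk h1
  · refine Eventually.of_forall fun A => Sle_mono hn ?_
    refine (Set.encard_le_encard (inv_le (hx A))).trans ?_
    exact (Set.encard_insert_le _ _).trans (by rw [Set.encard_singleton]; norm_num)

theorem fsym_ne {n : ℕ} : Sle (FSym X) n ≠ Set.univ := by
  obtain ⟨g, hg⟩ := exists_pow (X := X) n
  intro h
  exact not_mem_Sle hg (by rw [h]; trivial)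

end

end Pool.Agent.KS6_21.NC
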