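import Pool.Agent.KS6_21.SZ.Heis

set_option autoImplicit false

/-! Families of elements of a group converging to all elements in the semi-Zariski topology. -/

namespace Pool.Agent.KS6_21.NC

open Set Topology Filter Pool.Agent.KS6_21.SZ

universe u v

/-- The elements whose double centralizers have at most `n` elements. -/
def Sle (S : Type u) [Semigroup S] (n : ℕ) : Set S :=
  {f | ({f} : Set S).centralizer.centralizer.encard ≤ n}

theorem Sle_mono {S : Type u} [Semigroup S] {n m : ℕ} (h : n ≤ m) : Sle S n ⊆ Sle S m :=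
  fun _ hf => le_trans (show _ ≤ (n : ℕ∞) from hf) (by exact_mod_cast h)

variable {G : Type u} [Group G] {ι : Type v} {l : Filter ι} {x : ι → G}

theorem tendsto_all (h1 : ∀ w, ∀ᶠ i in l, x i ≠ w)
    (h2 : ∀ u v, u ≠ 1 → ∀ᶠ i in l, u * x i ≠ x i * v) (g : G) :
    Tendsto x l (@nhds G (semiZariski G) g) := by
  let φ : WithOne G →* G := WithOne.lift (MulHom.id _)
  have h3 : ∀ (a b : WithOne G) (y : G), a * y * b = (φ a * y * φ b : G) := by
    intro a b y
    induction a using WithOne.recOneCoe <;> induction b using WithOne.recOneCoe <;> simp [φ]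
  refine TopologicalSpace.tendsto_nhds_generateFrom_iff.2 ?_
  rintro _ ⟨a, b, c, d, rfl | rfl⟩ hg
  · induction c using WithOne.recOneCoe with
    | one =>
      refine Eventually.of_forall fun i => ?_
      show _ ≠ _
      rw [h3]
      exact WithOne.coe_ne_one
    | coe c =>
      filter_upwards [h1 ((φ a)⁻¹ * c * (φ b)⁻¹)] with i hi
      show _ ≠ _
      rw [h3]
      intro he
      apply hi
      rw [← WithOne.coe_inj.1 he]
      group
  · have hg' : φ a * g * φ b ≠ φ c * g * φ d := fun h => hg (by rw [h3, h3, h])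
    have key : ∀ y : G, φ a * y * φ b = φ c * y * φ d →
        ((φ c)⁻¹ * φ a) * y = y * (φ d * (φ b)⁻¹) := by
      intro y h
      calc ((φ c)⁻¹ * φ a) * y = (φ c)⁻¹ * (φ a * y * φ b) * (φ b)⁻¹ := by group
        _ = _ := by rw [h]; group
    by_cases hu : (φ c)⁻¹ * φ a = 1
    · have hac : φ a = φ c := (inv_mul_eq_one.1 hu).symm
      have hbd : φ b ≠ φ d := fun h => hg' (by rw [hac, h])
      refine Eventually.of_forall fun i => ?_
      show _ ≠ _
      rw [h3, h3, hac]
      intro he
      exact hbd (mul_left_cancel (WithOne.coe_inj.1 he))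
    · filter_upwards [h2 _ (φ d * (φ b)⁻¹) hu] with i hi
      show _ ≠ _
      rw [h3, h3]
      intro he
      exact hi (key _ (WithOne.coe_inj.1 he))

theorem closure_eq [l.NeBot] (h1 : ∀ w, ∀ᶠ i in l, x i ≠ w)
    (h2 : ∀ u v, u ≠ 1 → ∀ᶠ i in l, u * x i ≠ x i * v) {S : Set G} (hS : ∀ᶠ i in l, x i ∈ S) :
    @closure G (semiZariski G) S = Set.univ := by
  let _ := semiZariski G
  exact eq_univ_of_forall fun g => mem_closure_of_tendsto (tendsto_all h1 h2 g) hS

theorem not_closed {S : Set G} (h : @closure G (semiZariski G) S = Set.univ) (hS : S ≠ Set.univ) :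
    ¬ @IsClosed G (semiZariski G) S := by
  let _ := semiZariski G
  intro hc
  exact hS (hc.closure_eq.symm.trans h)

/-- In a group, the sets for `n ≤ 1` contain at most the unit. -/
theorem Sle_one {n : ℕ} (hn : n ≤ 1) : Sle G n ⊆ {1} := by
  intro f hf
  have h1 : ({f} : Set G).centralizer.centralizer.encard ≤ 1 :=
    hf.trans (by exact_mod_cast hn)
  have h2 : (1 : G) ∈ ({f} : Set G).centralizer.centralizer := fun y _ => by simp
  have h3 : f ∈ ({f} : Set G).centralizer.centralizer :=
    fun y hy => (hy f rfl).symm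
  exact Set.encard_le_one_iff.1 h1 _ _ h3 h2

/-- Singletons are closed in the semi-Zariski topology of a group. -/
theorem closed_of_subset {T : Set G} (h : T ⊆ {1}) : @IsClosed G (semiZariski G) T := by
  let _ := semiZariski G
  rcases Set.subset_singleton_iff_eq.1 h with rfl | rfl
  · exact isClosed_empty
  · refine ⟨?_⟩
    refine TopologicalSpace.isOpen_generateFrom_of_mem ⟨1, 1, ((1 : G) : WithOne G), 1, Or.inl ?_⟩
    ext y
    simp [WithOne.coe_inj]

/-- The powers of an element are in its double centralizer. -/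
theorem not_mem_Sle {g : G} {n : ℕ} (h : ∀ k l : ℕ, k ≤ n → l ≤ n → g ^ k = g ^ l → k = l) :
    g ∉ Sle G n := by
  intro hg
  have h1 : (Finset.range (n + 1) : Set ℕ).InjOn fun k => g ^ k := fun k hk l hl e =>
    h k l (by simpa [Nat.lt_succ_iff] using hk) (by simpa [Nat.lt_succ_iff] using hl) e
  have h2 : ((fun k => g ^ k) '' (Finset.range (n + 1) : Set ℕ)) ⊆
      ({g} : Set G).centralizer.centralizer := by
    rintro _ ⟨k, -, rfl⟩ y hy
    exact ((show Commute g y from hy g rfl).pow_left k).eq.symm
  have h3 := (Set.encard_le_encard h2).trans (show _ ≤ (n : ℕ∞) from hg)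
  rw [h1.encard_image, Set.encard_coe_eq_coe_finsetCard, Finset.card_range] at h3
  have : n + 1 ≤ n := by exact_mod_cast h3
  omega

end Pool.Agent.KS6_21.NC
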