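import Pool.Graph.R_pool_sql_team_22a80281.Lib.helper15_.Fdc2
import Pool.Agent.KS6_21.NC.FSym

set_option autoImplicit false

/-! Groups of all regular uncountable cardinalities in which the sets of the elements with small
double centralizers are large. -/

namespace Pool.Agent.KS6_21.NC

open Set Topology Filter Pool.Agent.KS6_21.SZ Pool.Agent.Lib.helper15.Fdc

section
variable {I : Type} [LinearOrder I]

theorem generic' [NoMaxOrder I] (u v : G I) (hu : u ≠ 1) :
    ∀ᶠ a in (atTop : Filter I), u * X a ≠ X a * v := by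
  obtain ⟨p, hp⟩ : ∃ p, u.1 p ≠ p := by_contra fun c =>
    hu (Subtype.ext (Equiv.Perm.ext fun p => by_contra fun d => c ⟨p, d⟩))
  obtain ⟨A, hA⟩ := v.2
  have h0 : ∀ᶠ a in (atTop : Filter I), ∀ s ∈ A ∪ p.support, s < a :=
    (Filter.eventually_all_finset _).2 fun s _ => eventually_gt_atTop s
  filter_upwards [h0] with a c ha
  apply hp
  have h0 : ∀ b, a ≤ b → p b = 0 := fun b hb => by_contra fun d =>
    (c b (by simp [d])).not_ge hb
  have e : u.1 (fl a (fl a p)) = fl a (v.1 (fl a p)) := congrArg (fun g : G I => g.1 (fl a p)) ha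
  rwa [P.bdd hA _ a (fun d => (c a (by simp [d])).false) (fun s hs => c s (by simp [hs]))
    (by simp [fl_pos fun b hb => h0 b hb.le, h0 a le_rfl]), fl_inv] at e

theorem ne' [NoMaxOrder I] (w : G I) : ∀ᶠ a in (atTop : Filter I), X a ≠ w := by
  by_cases h : ∃ a, X a = w
  · obtain ⟨a, rfl⟩ := h
    filter_upwards [eventually_gt_atTop a] with b hb he
    exact hb.ne' (X_inj he)
  · push Not at h
    exact Eventually.of_forall h

theorem small' [NoMaxOrder I] [Nonempty I] (e : ℕ ↪ I) {a : I} (c : ∀ n, e n < a) :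
    ({X a} : Set (G I)).centralizer.centralizer ⊆ {1, X a} := by
  intro h hh
  have s : Function.Injective fun b : I => (Finsupp.single b 1 : Om I) :=
    Finsupp.single_left_injective one_ne_zero
  refine (dc_inv (congrArg Subtype.val (X_sq a)) ?_ ?_ (dc_of (fun f hf => ?_) hh)).imp
    Subtype.ext Subtype.ext
  · have : (Ioi a).Infinite := Set.Ioi_infinite a
    refine infinite_of_injOn_mapsTo s.injOn (fun b hb => ?_) this
    exact if_neg fun d => by simpa using d b hb
  · refine infinite_of_injective_forall_mem (s.comp e.injective) fun n d => ?_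
    have : fl a _ = _ := d
    rw [fl_pos fun b hb => by simp [((c n).trans hb).ne']] at this
    simp at this
  · rw [hf]; exact Subgroup.mem_zpowers _

theorem mk_GI [Infinite I] : Cardinal.mk (G I) = Cardinal.mk I := by
  refine le_antisymm ?_ (Cardinal.mk_le_of_injective X_inj)
  have h1 : ((G I : Set (Equiv.Perm (Om I)))) = ⋃ A : Finset I, (GA A : Set (Equiv.Perm (Om I))) := by
    ext g
    simp only [mem_iUnion, SetLike.mem_coe]
    exact Iff.rfl
  have h2 : Cardinal.mk (G I) = Cardinal.mk ((G I : Set (Equiv.Perm (Om I)))) := rfl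
  rw [h2, h1]
  refine (Cardinal.mk_iUnion_le_sum_mk).trans ?_
  refine (Cardinal.sum_le_sum _ (fun _ => Cardinal.aleph0) fun A => ?_).trans ?_
  · exact (Cardinal.mk_lt_aleph0 (α := GA A)).le
  · rw [Cardinal.sum_const, Cardinal.lift_id, Cardinal.lift_id, Cardinal.mk_finset_of_infinite]
    exact (Cardinal.mul_eq_left (Cardinal.aleph0_le_mk I) (Cardinal.aleph0_le_mk I)
      Cardinal.aleph0_ne_zero).le

end

theorem exists_regular {μ : Cardinal.{0}} (hμ : μ.IsRegular) (h0 : Cardinal.aleph0 < μ) :
    ∃ (H : Type) (_ : Group H), Cardinal.mk H = μ ∧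
      (∀ F : Set H, F.Finite → F.centralizer.centralizer.Finite) ∧
      ∀ n : ℕ, 2 ≤ n → @closure H (semiZariski H) (Sle H n) = Set.univ ∧
        ¬ @IsClosed H (semiZariski H) (Sle H n) ∧
        ∀ (J : Type) (D : J → Set H), Cardinal.mk J < μ →
          (∀ j, @DiscreteTopology (D j) (TopologicalSpace.induced Subtype.val (semiZariski H))) →
          (⋃ j, D j) ≠ Sle H n := by
  classical
  let I := μ.ord.ToType
  have hI : Cardinal.mk I = μ := Cardinal.mk_ord_toType μ
  have hinf : Infinite I := Cardinal.infinite_iff.2 (by rw [hI]; exact h0.le)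
  have hIio : ∀ a : I, Cardinal.mk (Iio a) < μ := fun a => Cardinal.mk_Iio_toType_ord_lt a
  have hIic : ∀ a : I, Cardinal.mk (Iic a) < μ := fun a => by
    rw [← Iio_insert]
    refine (Cardinal.mk_insert_le).trans_lt ?_
    exact Cardinal.add_lt_of_lt h0.le (hIio a) (Cardinal.one_lt_aleph0.trans h0)
  have hmax : NoMaxOrder I := ⟨fun a => by
    by_contra h
    push Not at h
    have h1 : Iic a = Set.univ := eq_univ_of_forall h
    have h2 := hIic a
    rw [h1, Cardinal.mk_univ, hI] at h2
    exact h2.false⟩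
  let e : ℕ ↪ I := Infinite.natEmbedding I
  have hsmall : ∀ᶠ a in (atTop : Filter I),
      ({X a} : Set (G I)).centralizer.centralizer ⊆ {1, X a} := by
    have h1 : Cardinal.mk (⋃ n : ℕ, Iic (e n) : Set I) < μ :=
      (Cardinal.card_iUnion_lt_iff_forall_of_isRegular hμ (by simpa using h0)).2 fun n => hIic _
    obtain ⟨a0, ha0⟩ : ∃ a0, a0 ∉ (⋃ n : ℕ, Iic (e n) : Set I) := by
      by_contra h
      push Not at h
      rw [eq_univ_of_forall h, Cardinal.mk_univ, hI] at h1
      exact h1.false
    simp only [mem_iUnion, mem_Iic, not_exists, not_le] at ha0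
    filter_upwards [eventually_ge_atTop a0] with a ha
    exact small' e fun n => (ha0 n).trans_le ha
  have hX : ∀ n : ℕ, 2 ≤ n → ∀ᶠ a in (atTop : Filter I), X a ∈ Sle (G I) n := by
    intro n hn
    filter_upwards [hsmall] with a ha
    refine Sle_mono hn ((Set.encard_le_encard ha).trans ?_)
    exact (Set.encard_insert_le _ _).trans (by rw [Set.encard_singleton]; norm_num)
  have hne : ∀ n : ℕ, Sle (G I) n ≠ Set.univ := by
    intro n
    obtain ⟨g, hg⟩ := exists_pow (X := Om I) n
    intro h
    have hgm : (⟨g.1, fin_mem g.2⟩ : G I) ∉ Sle (G I) n := not_mem_Sle fun k l hk hl hkl =>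
      hg k l hk hl (Subtype.ext (by
        have h1 : g.1 ^ k = g.1 ^ l := congrArg Subtype.val hkl
        exact h1))
    exact hgm (by rw [h]; trivial)
  refine ⟨G I, inferInstance, mk_GI.trans hI, Pool.Agent.Lib.helper15.Fdc.fdc, fun n hn => ?_⟩
  have hcl := closure_eq (l := (atTop : Filter I)) (x := X) ne' generic' (hX n hn)
  refine ⟨hcl, not_closed hcl (hne n), fun J D hJ hD hU => ?_⟩
  have hT : ∀ j, Cardinal.mk (X ⁻¹' D j : Set I) < μ := by
    intro j
    rcases (X ⁻¹' D j : Set I).eq_empty_or_nonempty with h1 | ⟨a0, ha0⟩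
    · rw [h1, Cardinal.mk_eq_zero]
      exact hμ.pos
    · have h2 : IsOpen[TopologicalSpace.induced Subtype.val (semiZariski (G I))]
          ({⟨X a0, ha0⟩} : Set (D j)) :=
        @isOpen_discrete _ (TopologicalSpace.induced Subtype.val (semiZariski (G I))) (hD j) _
      obtain ⟨U, hUo, he⟩ := (@isOpen_induced_iff _ _ (semiZariski (G I)) _ _).1 h2
      have hmem : X a0 ∈ U := by
        have : (⟨X a0, ha0⟩ : D j) ∈ Subtype.val ⁻¹' U := by rw [he]; rfl
        exact this
      have h3 : ∀ᶠ a in (atTop : Filter I), X a ∈ U :=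
        (tendsto_all ne' generic' (X a0)).eventually
          (@IsOpen.mem_nhds (G I) (semiZariski (G I)) (X a0) U hUo hmem)
      obtain ⟨b, hb⟩ := (h3.and (eventually_gt_atTop a0)).exists_forall_of_atTop
      refine (Cardinal.mk_le_mk_of_subset ?_).trans_lt (hIio b)
      intro a ha
      by_contra hab
      obtain ⟨h4, h5⟩ := hb a (not_lt.1 hab)
      have h6 : (⟨X a, ha⟩ : D j) ∈ Subtype.val ⁻¹' U := h4
      rw [he] at h6
      exact h5.ne' (X_inj (congrArg Subtype.val (mem_singleton_iff.1 h6)))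
  have h1 : Cardinal.mk (⋃ j, (X ⁻¹' D j : Set I) : Set I) < μ :=
    (Cardinal.card_iUnion_lt_iff_forall_of_isRegular hμ hJ).2 hT
  obtain ⟨b, hb⟩ := (hX n hn).exists_forall_of_atTop
  have h2 : (Set.univ : Set I) ⊆ Iio b ∪ ⋃ j, (X ⁻¹' D j : Set I) := by
    intro a _
    by_cases hab : a < b
    · exact Or.inl hab
    · right
      have h3 := hb a (not_lt.1 hab)
      rw [← hU] at h3
      rw [← preimage_iUnion]
      exact h3
  have h3 := (Cardinal.mk_le_mk_of_subset h2).trans (Cardinal.mk_union_le _ _)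
  rw [Cardinal.mk_univ, hI] at h3
  exact absurd h3 (not_le.2 (Cardinal.add_lt_of_lt h0.le (hIio b) h1))

end Pool.Agent.KS6_21.NC
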